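import Pool.Agent.Run7.h282.KS.Main

/-!
# MP_2baa92_co, Q1 (partial): `N(n,k) ≤ N(m,k+1)` for all `n` and all `m > k (k + 1)`

`Phi n k a` is the number of permutations `π` of the `k` indices such that the `k` sums `a (π i) + i` are
different modulo `n`, and `N n k` its minimum over all vectors `a` (`Pool/Agent/Run7/h282/KS/Main.lean`).

Proof: as `m > k (k + 1)`, after a translation no `a_u` lies in the `k` residues `-1, .., -k`; then every
equality `a_u + i = a_v + j` modulo `m` with `0 ≤ i, j ≤ k` holds for the least nonnegative representatives.
Put the largest representative at the last place.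
-/

set_option autoImplicit false

namespace Pool.Agent.Results.MP_2baa92_co.LargeModulus

/-- `N(n,k) ≤ N(m,k+1)` for all `n` and all `m > k (k + 1)`. -/
theorem result : ∀ n m k : ℕ, (k + 1) * k < m → Run7.h282.KS.N n k ≤ Run7.h282.KS.N m (k + 1) :=
  fun n m k h => Run7.h282.KS.mono_k n m k h

end Pool.Agent.Results.MP_2baa92_co.LargeModulus
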